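import Mathlib
import Pool.Agent.H78.CR.Ineq

set_option autoImplicit false

/-! Correlations along trees for measure preserving actions of arbitrary groups: the average of the
`(k+1)`-point correlations is at least `(∫ f) ^ (k + 1)`. -/

namespace Pool.Agent.H78.TR

open Finset MeasureTheory Pool.Agent.H78.CR

universe u v w

/-- The positions: `W 0 = 1` and `W (j + 1) = h_j(x_{j+1})⁻¹ h_j(x_{π j}) W (π j)`, where `π j ≤ j` is the parent
of `j + 1`. -/
def W {G : Type v} [Group G] {ι : Type w} (π : (j : ℕ) → Fin (j + 1)) (h : ℕ → ι → G) (x : ℕ → ι) : ℕ → G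
  | 0 => 1
  | (j + 1) => (h j (x (j + 1)))⁻¹ * h j (x (π j)) * W π h x (π j)

section alg

variable {G : Type v} [Group G] {ι : Type w} (π : (j : ℕ) → Fin (j + 1)) (h : ℕ → ι → G)

lemma W_zero (x : ℕ → ι) : W π h x 0 = 1 := by rw [W]

lemma W_succ (x : ℕ → ι) (j : ℕ) :
    W π h x (j + 1) = (h j (x (j + 1)))⁻¹ * h j (x (π j)) * W π h x (π j) := by rw [W]

/-- the vertex shared by `j + 1` and its parent -/
def Z (x : ℕ → ι) (j : ℕ) : G := h j (x (π j)) * W π h x (π j)

lemma W_succ' (x : ℕ → ι) (j : ℕ) : W π h x (j + 1) = (h j (x (j + 1)))⁻¹ * Z π h x j := by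
  rw [W_succ, Z, mul_assoc]

lemma W_congr {x y : ℕ → ι} (j : ℕ) : (∀ m ≤ j, x m = y m) → W π h x j = W π h y j := by
  induction j using Nat.strong_induction_on with
  | _ j ih =>
    intro hxy
    rcases j with _ | j
    · rw [W_zero, W_zero]
    · have hp : (π j : ℕ) ≤ j := Nat.lt_succ_iff.1 (π j).2
      rw [W_succ, W_succ, hxy (j + 1) le_rfl, hxy (π j) (by omega),
        ih (π j) (by omega) (fun m hm => hxy m (by omega))]

lemma Z_congr {x y : ℕ → ι} (j : ℕ) (hxy : ∀ m ≤ j, x m = y m) : Z π h x j = Z π h y j := by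
  have hp : (π j : ℕ) ≤ j := Nat.lt_succ_iff.1 (π j).2
  rw [Z, Z, hxy (π j) hp, W_congr π h (π j) (fun m hm => hxy m (by omega))]

end alg

section iter

variable {ι : Type w} [Fintype ι] [Nonempty ι]

/-- iterated average over the coordinates `0, ..., n` -/
noncomputable def IA : (n : ℕ) → ((ℕ → ι) → ℝ) → (ℕ → ι) → ℝ
  | 0, F, x => av (fun c => F (Function.update x 0 c))
  | (n + 1), F, x => IA n (fun y => av (fun c => F (Function.update y (n + 1) c))) x

lemma av_add (F H : ι → ℝ) : av (fun i => F i + H i) = av F + av H := by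
  unfold av
  rw [sum_add_distrib, add_div]

lemma IA_mono (n : ℕ) : ∀ {F H : (ℕ → ι) → ℝ}, (∀ x, F x ≤ H x) → ∀ x, IA n F x ≤ IA n H x := by
  induction n with
  | zero =>
    intro F H hFH x
    rw [IA, IA]
    exact av_mono fun c => hFH _
  | succ n ih =>
    intro F H hFH x
    rw [IA, IA]
    exact ih (fun y => av_mono fun c => hFH _) x

lemma IA_add (n : ℕ) : ∀ (F H : (ℕ → ι) → ℝ) (x : ℕ → ι), IA n (fun y => F y + H y) x = IA n F x + IA n H x := by
  induction n with
  | zero =>
    intro F H x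
    rw [IA, IA, IA, av_add]
  | succ n ih =>
    intro F H x
    rw [IA, IA, IA, ← ih]
    simp_rw [av_add]

lemma IA_mul (n : ℕ) (c : ℝ) : ∀ (F : (ℕ → ι) → ℝ) (x : ℕ → ι), IA n (fun y => c * F y) x = c * IA n F x := by
  induction n with
  | zero =>
    intro F x
    rw [IA, IA, av_mul_left]
  | succ n ih =>
    intro F x
    rw [IA, IA, ← ih]
    simp_rw [av_mul_left]

lemma IA_const (n : ℕ) (c : ℝ) : ∀ x : ℕ → ι, IA n (fun _ => c) x = c := by
  induction n with
  | zero =>
    intro x
    rw [IA, av_const]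
  | succ n ih =>
    intro x
    rw [IA]
    simp_rw [av_const]
    exact ih x

lemma IA_sum (n : ℕ) (s : Finset ℕ) (F : ℕ → (ℕ → ι) → ℝ) (x : ℕ → ι) :
    IA n (fun y => ∑ j ∈ s, F j y) x = ∑ j ∈ s, IA n (F j) x := by
  classical
  induction s using Finset.induction_on with
  | empty =>
    simp only [sum_empty]
    exact IA_const n 0 x
  | insert a s ha ih =>
    simp only [sum_insert ha]
    rw [IA_add, ih]

/-- the iterated average as an average over tuples -/
lemma IA_eq (n : ℕ) : ∀ (F : (ℕ → ι) → ℝ) (x : ℕ → ι),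
    IA n F x = av (fun y : Fin (n + 1) → ι => F (fun m => if hm : m < n + 1 then y ⟨m, hm⟩ else x m)) := by
  induction n with
  | zero =>
    intro F x
    rw [IA, ← av_equiv (Equiv.funUnique (Fin 1) ι).symm]
    congr 1
    funext c
    congr 1
    funext m
    by_cases hm : m < 0 + 1
    · have : m = 0 := by omega
      subst this
      simp
    · have : m ≠ 0 := by omega
      rw [dif_neg hm, Function.update_of_ne this]
  | succ n ih =>
    intro F x
    rw [IA, ih, ← av_equiv (Fin.snocEquiv (fun _ : Fin (n + 1 + 1) => ι)), av_prod, av_comm]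
    congr 1
    funext c
    congr 1
    funext y
    congr 1
    funext m
    by_cases hm : m = n + 1
    · subst hm
      rw [Function.update_self, dif_pos (by omega)]
      exact (Fin.snoc_last (α := fun _ : Fin (n + 1 + 1) => ι) c y).symm
    · rw [Function.update_of_ne hm]
      by_cases hm2 : m < n + 1
      · rw [dif_pos hm2, dif_pos (by omega)]
        exact (Fin.snoc_castSucc (α := fun _ : Fin (n + 1 + 1) => ι) c y ⟨m, hm2⟩).symm
      · rw [dif_neg hm2, dif_neg (by omega)]

end iter

end Pool.Agent.H78.TR
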