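import Mathlib
import Pool.Agent.H78.TR.Tree

set_option autoImplicit false

/-! The inequality for trees. -/

namespace Pool.Agent.H78.TR

open Finset MeasureTheory Pool.Agent.H78.CR

universe u v w

section

variable {Ω : Type u} [MeasurableSpace Ω]

/-- bounded and measurable -/
def BM (f : Ω → ℝ) : Prop := Measurable f ∧ ∃ B : ℝ, ∀ ω, |f ω| ≤ B

lemma BM.int {μ : Measure Ω} [IsProbabilityMeasure μ] {f : Ω → ℝ} (hf : BM f) : Integrable f μ := by
  obtain ⟨hm, B, hB⟩ := hf
  refine Integrable.of_bound (C := B) hm.aestronglyMeasurable ?_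
  filter_upwards with ω
  rw [Real.norm_eq_abs]
  exact hB ω

lemma BM.mul {f g : Ω → ℝ} (hf : BM f) (hg : BM g) : BM (fun ω => f ω * g ω) := by
  obtain ⟨hm, B, hB⟩ := hf
  obtain ⟨hm', B', hB'⟩ := hg
  refine ⟨hm.mul hm', B * B', fun ω => ?_⟩
  rw [abs_mul]
  exact mul_le_mul (hB ω) (hB' ω) (abs_nonneg _) ((abs_nonneg _).trans (hB ω))

lemma BM.add {f g : Ω → ℝ} (hf : BM f) (hg : BM g) : BM (fun ω => f ω + g ω) := by
  obtain ⟨hm, B, hB⟩ := hf
  obtain ⟨hm', B', hB'⟩ := hg
  exact ⟨hm.add hm', B + B', fun ω => (abs_add_le _ _).trans (add_le_add (hB ω) (hB' ω))⟩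

lemma BM.const (c : ℝ) : BM (fun _ : Ω => c) := ⟨measurable_const, |c|, fun _ => le_rfl⟩

lemma BM.sum {ι : Type w} (s : Finset ι) {f : ι → Ω → ℝ} (hf : ∀ i ∈ s, BM (f i)) :
    BM (fun ω => ∑ i ∈ s, f i ω) := by
  classical
  induction s using Finset.induction_on with
  | empty => simpa using BM.const (Ω := Ω) 0
  | insert a s ha ih =>
    simp only [sum_insert ha]
    exact (hf a (mem_insert_self a s)).add (ih fun i hi => hf i (mem_insert_of_mem hi))

lemma BM.prod {ι : Type w} (s : Finset ι) {f : ι → Ω → ℝ} (hf : ∀ i ∈ s, BM (f i)) :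
    BM (fun ω => ∏ i ∈ s, f i ω) := by
  classical
  induction s using Finset.induction_on with
  | empty => simpa using BM.const (Ω := Ω) 1
  | insert a s ha ih =>
    simp only [prod_insert ha]
    exact (hf a (mem_insert_self a s)).mul (ih fun i hi => hf i (mem_insert_of_mem hi))

lemma BM.av {ι : Type w} [Fintype ι] {f : ι → Ω → ℝ} (hf : ∀ i, BM (f i)) :
    BM (fun ω => av (fun i => f i ω)) := by
  unfold CR.av
  have h1 := (BM.sum univ fun i _ => hf i).mul (BM.const (Ω := Ω) ((Fintype.card ι : ℝ)⁻¹))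
  simpa only [div_eq_mul_inv] using h1

lemma BM.inv {f : Ω → ℝ} (hf : Measurable f) {η : ℝ} (hη : 0 < η) (h : ∀ ω, η ≤ f ω) : BM (fun ω => (f ω)⁻¹) := by
  refine ⟨hf.inv, η⁻¹, fun ω => ?_⟩
  rw [abs_of_nonneg (inv_nonneg.2 (hη.le.trans (h ω)))]
  exact inv_anti₀ hη (h ω)

lemma BM.div {f g : Ω → ℝ} (hf : BM f) (hg : Measurable g) {η : ℝ} (hη : 0 < η) (h : ∀ ω, η ≤ g ω) :
    BM (fun ω => f ω / g ω) := by
  simpa only [div_eq_mul_inv] using hf.mul (BM.inv hg hη h)

lemma integral_av' {μ : Measure Ω} [IsProbabilityMeasure μ] {ι : Type w} [Fintype ι] {f : ι → Ω → ℝ}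
    (hf : ∀ i, BM (f i)) : ∫ ω, av (fun i => f i ω) ∂μ = av (fun i => ∫ ω, f i ω ∂μ) := by
  unfold CR.av
  rw [integral_div, integral_finsetSum _ (fun i _ => (hf i).int)]

end

section

variable {Ω : Type u} [MeasurableSpace Ω] {μ : Measure Ω} [IsProbabilityMeasure μ]
variable {G : Type v} [Group G] [MulAction G Ω]

lemma BM.tr (hmp : ∀ g : G, MeasurePreserving (fun ω : Ω => g • ω) μ μ) {f : Ω → ℝ} (hf : BM f) (g : G) :
    BM (fun ω => f (g • ω)) := by
  obtain ⟨hm, B, hB⟩ := hf
  exact ⟨hm.comp (hmp g).measurable, B, fun ω => hB _⟩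

lemma integral_tr' (hmp : ∀ g : G, MeasurePreserving (fun ω : Ω => g • ω) μ μ) {f : Ω → ℝ} (hf : BM f) (g : G) :
    ∫ ω, f (g • ω) ∂μ = ∫ ω, f ω ∂μ := by
  have h := integral_map (hmp g).measurable.aemeasurable (f := f) (by
    rw [(hmp g).map_eq]; exact hf.1.aestronglyMeasurable)
  rw [(hmp g).map_eq] at h
  exact h.symm

variable {ι : Type w} [Fintype ι] [Nonempty ι] (π : (j : ℕ) → Fin (j + 1)) (h : ℕ → ι → G) (f : ι → Ω → ℝ)

/-- the degrees of the vertices -/
noncomputable def dg (j : ℕ) (z : Ω) : ℝ := av (fun c => f c ((h j c)⁻¹ • z))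

/-- the weights -/
noncomputable def wt : ℕ → (ℕ → ι) → Ω → ℝ
  | 0, x, p => f (x 0) p
  | (k + 1), x, p => wt k x p * (f (x (k + 1)) (W π h x (k + 1) • p) / dg h f k (Z π h x k • p))

lemma wt_succ (k : ℕ) (x : ℕ → ι) (p : Ω) : wt π h f (k + 1) x p =
    wt π h f k x p * (f (x (k + 1)) (W π h x (k + 1) • p) / dg h f k (Z π h x k • p)) := by rw [wt]

lemma wt_congr (k : ℕ) {x y : ℕ → ι} (hxy : ∀ m ≤ k, x m = y m) (p : Ω) : wt π h f k x p = wt π h f k y p := by
  induction k with
  | zero => rw [wt, wt, hxy 0 le_rfl]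
  | succ k ih =>
    rw [wt_succ, wt_succ, ih (fun m hm => hxy m (by omega)), W_congr π h (k + 1) hxy,
      Z_congr π h k (fun m hm => hxy m (by omega)), hxy (k + 1) le_rfl]

variable {f} {η : ℝ} (hf : ∀ c, BM (f c)) (hη : 0 < η) (hfη : ∀ c ω, η ≤ f c ω)

include hfη in
lemma dg_ge (j : ℕ) (z : Ω) : η ≤ dg h f j z := by
  unfold dg
  calc η = av (fun _ : ι => η) := (av_const η).symm
    _ ≤ _ := av_mono fun c => hfη c _

include hf in
lemma dg_BM (hmp : ∀ g : G, MeasurePreserving (fun ω : Ω => g • ω) μ μ) (j : ℕ) : BM (dg h f j) := by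
  unfold dg
  exact BM.av fun c => (hf c).tr hmp _

include hf hη hfη in
lemma wt_BM (hmp : ∀ g : G, MeasurePreserving (fun ω : Ω => g • ω) μ μ) (k : ℕ) (x : ℕ → ι) :
    BM (wt π h f k x) := by
  induction k with
  | zero =>
    have : wt π h f 0 x = f (x 0) := by funext p; rw [wt]
    rw [this]
    exact hf _
  | succ k ih =>
    have : wt π h f (k + 1) x = fun p =>
        wt π h f k x p * (f (x (k + 1)) (W π h x (k + 1) • p) / dg h f k (Z π h x k • p)) := by
      funext p; rw [wt_succ]
    rw [this]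
    exact ih.mul (((hf _).tr hmp _).div ((dg_BM h hf hmp k).tr hmp _).1 hη (fun ω => dg_ge h hfη k _))

/-- the marginals of the weights -/
theorem marginal (hmp : ∀ g : G, MeasurePreserving (fun ω : Ω => g • ω) μ μ) (hf : ∀ c, BM (f c)) (hη : 0 < η)
    (hfη : ∀ c ω, η ≤ f c ω) (x₀ : ℕ → ι) (k : ℕ) :
    ∀ j ≤ k, ∀ H : ι → Ω → ℝ, (∀ c, BM (H c)) →
      IA k (fun x => ∫ p, wt π h f k x p * H (x j) (W π h x j • p) ∂μ) x₀ = av (fun c => ∫ p, f c p * H c p ∂μ) := by
  induction k with
  | zero =>
    intro j hj H hH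
    obtain rfl : j = 0 := by omega
    rw [IA]
    congr 1
    funext c
    congr 1
    funext p
    rw [wt, W_zero, Function.update_self, one_smul]
  | succ k ih =>
    intro j hj H hH
    rw [IA]
    have hup : ∀ (y : ℕ → ι) (c : ι), ∀ m ≤ k, Function.update y (k + 1) c m = y m := by
      intro y c m hm
      exact Function.update_of_ne (by omega) _ _
    -- the positions after the update
    have hW : ∀ (y : ℕ → ι) (c : ι), W π h (Function.update y (k + 1) c) (k + 1) = (h k c)⁻¹ * Z π h y k := by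
      intro y c
      rw [W_succ', Function.update_self, Z_congr π h k (hup y c)]
    have hwt : ∀ (y : ℕ → ι) (c : ι) (p : Ω), wt π h f (k + 1) (Function.update y (k + 1) c) p =
        wt π h f k y p * (f c ((h k c)⁻¹ • (Z π h y k • p)) / dg h f k (Z π h y k • p)) := by
      intro y c p
      rw [wt_succ, wt_congr π h f k (hup y c), hW, Z_congr π h k (hup y c), Function.update_self, mul_smul]
    rcases Nat.lt_or_ge k j with hjk | hjk
    · -- the new node
      obtain rfl : j = k + 1 := by omega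
      set K : Ω → ℝ := fun z => av (fun c => (f c ((h k c)⁻¹ • z) / dg h f k z) * H c ((h k c)⁻¹ • z)) with hK
      have hKB : BM K := by
        refine BM.av fun c => ?_
        exact (((hf c).tr hmp _).div (dg_BM h hf hmp k).1 hη (fun ω => dg_ge h hfη k _)).mul ((hH c).tr hmp _)
      have hp : (π k : ℕ) ≤ k := Nat.lt_succ_iff.1 (π k).2
      have e1 : ∀ y : ℕ → ι, av (fun c => ∫ p, wt π h f (k + 1) (Function.update y (k + 1) c) p *
          H (Function.update y (k + 1) c (k + 1)) (W π h (Function.update y (k + 1) c) (k + 1) • p) ∂μ) =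
          ∫ p, wt π h f k y p * K (h k (y (π k)) • (W π h y (π k) • p)) ∂μ := by
        intro y
        rw [← integral_av' (f := fun (c : ι) p => wt π h f (k + 1) (Function.update y (k + 1) c) p *
          H (Function.update y (k + 1) c (k + 1)) (W π h (Function.update y (k + 1) c) (k + 1) • p)) (fun c =>
          (wt_BM π h hf hη hfη hmp _ _).mul ((hH _).tr hmp _))]
        congr 1
        funext p
        rw [hK]
        simp only
        rw [← av_mul_left]
        congr 1
        funext c
        have hz : h k (y (π k)) • (W π h y (π k) • p) = Z π h y k • p := by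
          rw [Z, mul_smul]
        rw [hwt, hW, Function.update_self, mul_smul, hz]
        ring
      simp_rw [e1]
      rw [ih (π k) hp (fun c q => K (h k c • q)) (fun c => hKB.tr hmp _)]
      have e2 : ∀ c, ∫ p, f c p * K (h k c • p) ∂μ = ∫ z, f c ((h k c)⁻¹ • z) * K z ∂μ := by
        intro c
        rw [← integral_tr' hmp (((hf c).tr hmp (h k c)⁻¹).mul hKB) (h k c)]
        congr 1
        funext p
        rw [inv_smul_smul]
      simp_rw [e2]
      rw [← integral_av' (f := fun (c : ι) z => f c ((h k c)⁻¹ • z) * K z) (fun c => ((hf c).tr hmp _).mul hKB)]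
      have e3 : ∀ z, av (fun c => f c ((h k c)⁻¹ • z) * K z) = av (fun c => f c ((h k c)⁻¹ • z) * H c ((h k c)⁻¹ • z)) := by
        intro z
        have hd : dg h f k z ≠ 0 := (hη.trans_le (dg_ge h hfη k z)).ne'
        have a1 : av (fun c => f c ((h k c)⁻¹ • z) * K z) = K z * dg h f k z := by
          unfold dg
          rw [← av_mul_left]
          congr 1
          funext c
          ring
        have a2 : K z = (dg h f k z)⁻¹ * av (fun c => f c ((h k c)⁻¹ • z) * H c ((h k c)⁻¹ • z)) := by
          rw [hK]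
          simp only
          rw [← av_mul_left]
          congr 1
          funext c
          rw [div_eq_mul_inv]
          ring
        rw [a1, a2]
        field_simp
      simp_rw [e3]
      rw [integral_av' (f := fun (c : ι) z => f c ((h k c)⁻¹ • z) * H c ((h k c)⁻¹ • z))
        (fun c => ((hf c).tr hmp _).mul ((hH c).tr hmp _))]
      congr 1
      funext c
      exact integral_tr' hmp ((hf c).mul (hH c)) (h k c)⁻¹
    · -- an old node
      have e1 : ∀ y : ℕ → ι, av (fun c => ∫ p, wt π h f (k + 1) (Function.update y (k + 1) c) p *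
          H (Function.update y (k + 1) c j) (W π h (Function.update y (k + 1) c) j • p) ∂μ) =
          ∫ p, wt π h f k y p * H (y j) (W π h y j • p) ∂μ := by
        intro y
        rw [← integral_av' (f := fun (c : ι) p => wt π h f (k + 1) (Function.update y (k + 1) c) p *
          H (Function.update y (k + 1) c j) (W π h (Function.update y (k + 1) c) j • p)) (fun c =>
          (wt_BM π h hf hη hfη hmp _ _).mul ((hH _).tr hmp _))]
        congr 1
        funext p
        have hd : dg h f k (Z π h y k • p) ≠ 0 := (hη.trans_le (dg_ge h hfη k _)).ne'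
        have a1 : av (fun c => wt π h f (k + 1) (Function.update y (k + 1) c) p *
            H (Function.update y (k + 1) c j) (W π h (Function.update y (k + 1) c) j • p)) =
            av (fun c => (wt π h f k y p * H (y j) (W π h y j • p) * (dg h f k (Z π h y k • p))⁻¹) *
              f c ((h k c)⁻¹ • (Z π h y k • p))) := by
          congr 1
          funext c
          rw [hwt, hup y c j hjk, W_congr π h j (fun m hm => hup y c m (by omega)), div_eq_mul_inv]
          ring
        rw [a1, av_mul_left]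
        have a2 : av (fun c => f c ((h k c)⁻¹ • (Z π h y k • p))) = dg h f k (Z π h y k • p) := rfl
        rw [a2, mul_assoc, inv_mul_cancel₀ hd, mul_one]
      simp_rw [e1]
      exact ih j hjk H hH

/-- the product of the values and the weights -/
lemma prod_eq (hη : 0 < η) (hfη : ∀ c ω, η ≤ f c ω) (k : ℕ) (x : ℕ → ι) (p : Ω) :
    ∏ j ∈ range (k + 1), f (x j) (W π h x j • p) =
      wt π h f k x p * ∏ j ∈ range k, dg h f j (Z π h x j • p) := by
  induction k with
  | zero => simp [wt, W_zero]
  | succ k ih =>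
    rw [prod_range_succ, ih, prod_range_succ, wt_succ]
    have hd : dg h f k (Z π h x k • p) ≠ 0 := (hη.trans_le (dg_ge h hfη k _)).ne'
    field_simp

lemma wt_nonneg (hη : 0 < η) (hfη : ∀ c ω, η ≤ f c ω) (k : ℕ) (x : ℕ → ι) (p : Ω) : 0 ≤ wt π h f k x p := by
  induction k with
  | zero => rw [wt]; exact hη.le.trans (hfη _ p)
  | succ k ih =>
    rw [wt_succ]
    exact mul_nonneg ih (div_nonneg (hη.le.trans (hfη _ _)) (hη.le.trans (dg_ge h hfη k _)))

/-- the inequality for functions bounded below -/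
theorem tree_pos (hmp : ∀ g : G, MeasurePreserving (fun ω : Ω => g • ω) μ μ) (hf : ∀ c, BM (f c)) (hη : 0 < η)
    (hfη : ∀ c ω, η ≤ f c ω) (x₀ : ℕ → ι) (k : ℕ) :
    (av fun c => ∫ ω, f c ω ∂μ) ^ (k + 1) ≤
      IA k (fun x => ∫ p, ∏ j ∈ range (k + 1), f (x j) (W π h x j • p) ∂μ) x₀ := by
  set β := av (fun c => ∫ ω, f c ω ∂μ) with hβ
  have hβ0 : 0 < β := by
    have h1 : ∀ c, η ≤ ∫ ω, f c ω ∂μ := by
      intro c
      have h2 : ∫ _ω : Ω, η ∂μ ≤ ∫ ω, f c ω ∂μ := integral_mono (integrable_const _) (hf c).int (hfη c)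
      have h3 : ∫ _ω : Ω, η ∂μ = η := by simp
      linarith
    have h2 := av_mono h1
    rw [av_const] at h2
    exact hη.trans_le h2
  -- logarithms of the degrees
  have hlB : ∀ j, BM (fun z => Real.log (dg h f j z / β)) := by
    intro j
    obtain ⟨hm, B, hB⟩ := dg_BM h hf hmp j
    refine ⟨(hm.div_const β).log, |Real.log (η / β)| + |Real.log (B / β)|, fun z => ?_⟩
    have h1 : η / β ≤ dg h f j z / β := div_le_div_of_nonneg_right (dg_ge h hfη j z) hβ0.le
    have h2 : dg h f j z / β ≤ B / β := div_le_div_of_nonneg_right ((le_abs_self _).trans (hB z)) hβ0.le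
    have h3 : 0 < η / β := by positivity
    have h4 := Real.log_le_log h3 h1
    have h5 := Real.log_le_log (h3.trans_le h1) h2
    have h6 := neg_abs_le (Real.log (η / β))
    have h7 := le_abs_self (Real.log (B / β))
    have h8 := abs_nonneg (Real.log (η / β))
    have h9 := abs_nonneg (Real.log (B / β))
    rw [abs_le]
    constructor <;> linarith
  -- pointwise inequality
  have hpt : ∀ (x : ℕ → ι) (p : Ω), β ^ k * (wt π h f k x p +
      ∑ j ∈ range k, wt π h f k x p * Real.log (dg h f j (Z π h x j • p) / β)) ≤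
      ∏ j ∈ range (k + 1), f (x j) (W π h x j • p) := by
    intro x p
    rw [prod_eq π h hη hfη]
    have hd : ∀ j ∈ range k, 0 < dg h f j (Z π h x j • p) / β := fun j _ =>
      div_pos (hη.trans_le (dg_ge h hfη j _)) hβ0
    have h1 : 0 < ∏ j ∈ range k, (dg h f j (Z π h x j • p) / β) := prod_pos hd
    have h2 := Real.log_le_sub_one_of_pos h1
    rw [Real.log_prod (fun j hj => (hd j hj).ne')] at h2
    have h3 : ∏ j ∈ range k, (dg h f j (Z π h x j • p) / β) =
        (∏ j ∈ range k, dg h f j (Z π h x j • p)) / β ^ k := by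
      rw [prod_div_distrib, prod_const, card_range]
    rw [h3] at h2
    have h4 : 1 + ∑ j ∈ range k, Real.log (dg h f j (Z π h x j • p) / β) ≤
        (∏ j ∈ range k, dg h f j (Z π h x j • p)) / β ^ k := by linarith
    rw [le_div_iff₀ (by positivity)] at h4
    have h5 := mul_le_mul_of_nonneg_left h4 (wt_nonneg π h hη hfη k x p)
    refine le_trans (le_of_eq ?_) h5
    rw [← mul_sum]
    ring
  -- integrate
  have hint : ∀ x : ℕ → ι, β ^ k * (∫ p, wt π h f k x p ∂μ +
      ∑ j ∈ range k, ∫ p, wt π h f k x p * Real.log (dg h f j (Z π h x j • p) / β) ∂μ) ≤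
      ∫ p, ∏ j ∈ range (k + 1), f (x j) (W π h x j • p) ∂μ := by
    intro x
    have b1 := wt_BM π h hf hη hfη hmp k x
    have b2 : ∀ j, BM (fun p => wt π h f k x p * Real.log (dg h f j (Z π h x j • p) / β)) := fun j =>
      b1.mul ((hlB j).tr hmp _)
    have b3 : BM (fun p => ∑ j ∈ range k, wt π h f k x p * Real.log (dg h f j (Z π h x j • p) / β)) :=
      BM.sum _ fun j _ => b2 j
    have b4 : BM (fun p => ∏ j ∈ range (k + 1), f (x j) (W π h x j • p)) := BM.prod _ fun j _ => (hf _).tr hmp _
    have h1 := integral_mono (((b1.add b3).int (μ := μ)).const_mul (β ^ k)) b4.int (hpt x)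
    rw [integral_const_mul, integral_add b1.int b3.int, integral_finsetSum _ (fun j _ => (b2 j).int)] at h1
    exact h1
  refine le_trans ?_ (IA_mono k hint x₀)
  rw [IA_mul, IA_add, IA_sum]
  have m0 := marginal π h hmp hf hη hfη x₀ k 0 (Nat.zero_le _) (fun _ _ => 1) (fun _ => BM.const 1)
  simp only [mul_one] at m0
  rw [m0, ← hβ]
  have m1 : ∀ j ∈ range k, 0 ≤ IA k (fun x => ∫ p, wt π h f k x p *
      Real.log (dg h f j (Z π h x j • p) / β) ∂μ) x₀ := by
    intro j hj
    rw [mem_range] at hj
    have hp : (π j : ℕ) ≤ j := Nat.lt_succ_iff.1 (π j).2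
    have m2 := marginal π h hmp hf hη hfη x₀ k (π j) (by omega)
      (fun c q => Real.log (dg h f j (h j c • q) / β)) (fun c => (hlB j).tr hmp _)
    have m3 : IA k (fun x => ∫ p, wt π h f k x p * Real.log (dg h f j (Z π h x j • p) / β) ∂μ) x₀ =
        av (fun c => ∫ p, f c p * Real.log (dg h f j (h j c • p) / β) ∂μ) := by
      rw [← m2]
      congr 1
      funext x
      congr 1
      funext p
      rw [Z, mul_smul]
    rw [m3]
    have e2 : ∀ c, ∫ p, f c p * Real.log (dg h f j (h j c • p) / β) ∂μ =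
        ∫ z, f c ((h j c)⁻¹ • z) * Real.log (dg h f j z / β) ∂μ := by
      intro c
      rw [← integral_tr' hmp (((hf c).tr hmp (h j c)⁻¹).mul (hlB j)) (h j c)]
      congr 1
      funext p
      rw [inv_smul_smul]
    simp_rw [e2]
    rw [← integral_av' (f := fun (c : ι) z => f c ((h j c)⁻¹ • z) * Real.log (dg h f j z / β))
      (fun c => ((hf c).tr hmp _).mul (hlB j))]
    have e3 : ∀ z, dg h f j z - β ≤ av (fun c => f c ((h j c)⁻¹ • z) * Real.log (dg h f j z / β)) := by
      intro z
      have a1 : av (fun c => f c ((h j c)⁻¹ • z) * Real.log (dg h f j z / β)) =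
          Real.log (dg h f j z / β) * dg h f j z := by
        unfold dg
        rw [← av_mul_left]
        congr 1
        funext c
        ring
      rw [a1]
      have hd : 0 < dg h f j z := hη.trans_le (dg_ge h hfη j z)
      have a2 := Real.log_le_sub_one_of_pos (div_pos hβ0 hd)
      have a3 : Real.log (β / dg h f j z) = - Real.log (dg h f j z / β) := by
        rw [← Real.log_inv, inv_div]
      rw [a3] at a2
      have a4 : 1 - β / dg h f j z ≤ Real.log (dg h f j z / β) := by linarith
      have a5 := mul_le_mul_of_nonneg_right a4 hd.le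
      refine le_trans (le_of_eq ?_) a5
      field_simp
    have b1 := dg_BM h hf hmp j
    have b2 : BM (fun z => av (fun c => f c ((h j c)⁻¹ • z) * Real.log (dg h f j z / β))) :=
      BM.av fun c => ((hf c).tr hmp _).mul (hlB j)
    have b3 : Integrable (fun z => dg h f j z - β) μ := b1.int.sub (integrable_const _)
    have h1 := integral_mono b3 b2.int e3
    refine le_trans (le_of_eq ?_) h1
    rw [integral_sub b1.int (integrable_const _)]
    have h2 : ∫ z, dg h f j z ∂μ = β := by
      unfold dg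
      rw [integral_av' (f := fun (c : ι) z => f c ((h j c)⁻¹ • z)) (fun c => (hf c).tr hmp _), hβ]
      congr 1
      funext c
      exact integral_tr' hmp (hf c) _
    rw [h2]
    simp
  have m4 := sum_nonneg m1
  calc β ^ (k + 1) = β ^ k * (β + 0) := by rw [add_zero, pow_succ]
    _ ≤ _ := mul_le_mul_of_nonneg_left (by linarith) (by positivity)

end

end Pool.Agent.H78.TR
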