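import Mathlib
import Pool.Agent.H78.TR.Meas
import Pool.Graph.R_pool_sql_team_seeded_843ab51a.Results.MP_8923e7_nt.PartitionIntoClusters

set_option autoImplicit false

/-! Correlations along trees and tuples of primes. -/

namespace Pool.Agent.H78.TR

open Finset MeasureTheory Pool.Agent.H78.CR

universe u v w

lemma prod_close (n : ℕ) (a b : ℕ → ℝ) (η : ℝ) (hη : 0 ≤ η) (ha : ∀ j, 0 ≤ a j ∧ a j ≤ 1)
    (hab : ∀ j, a j ≤ b j) (hba : ∀ j, b j ≤ a j + η) (hb : ∀ j, b j ≤ 1) :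
    ∏ j ∈ range n, b j ≤ ∏ j ∈ range n, a j + n * η := by
  induction n with
  | zero => simp
  | succ n ih =>
    rw [prod_range_succ, prod_range_succ]
    have h1 : 0 ≤ ∏ j ∈ range n, b j := prod_nonneg fun j _ => (ha j).1.trans (hab j)
    have h2 : ∏ j ∈ range n, b j ≤ 1 := prod_le_one (fun j _ => (ha j).1.trans (hab j)) (fun j _ => hb j)
    have h3 := (ha n).1
    have h4 := (ha n).2
    calc (∏ j ∈ range n, b j) * b n ≤ (∏ j ∈ range n, b j) * (a n + η) := mul_le_mul_of_nonneg_left (hba n) h1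
      _ = (∏ j ∈ range n, b j) * a n + (∏ j ∈ range n, b j) * η := by ring
      _ ≤ (∏ j ∈ range n, a j + n * η) * a n + 1 * η := by
          apply add_le_add
          · exact mul_le_mul_of_nonneg_right ih h3
          · exact mul_le_mul_of_nonneg_right h2 hη
      _ = (∏ j ∈ range n, a j) * a n + n * η * a n + η := by ring
      _ ≤ (∏ j ∈ range n, a j) * a n + n * η * 1 + η := by
          have : (n : ℝ) * η * a n ≤ n * η * 1 := mul_le_mul_of_nonneg_left h4 (by positivity)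
          linarith
      _ = (∏ j ∈ range n, a j) * a n + ((n + 1 : ℕ) : ℝ) * η := by push_cast; ring

section

variable {Ω : Type u} [MeasurableSpace Ω] {μ : Measure Ω} [IsProbabilityMeasure μ]
variable {G : Type v} [Group G] [MulAction G Ω]
variable {ι : Type w} [Fintype ι] [Nonempty ι]

theorem tree_IA (hmp : ∀ g : G, MeasurePreserving (fun ω : Ω => g • ω) μ μ) (π : (j : ℕ) → Fin (j + 1))
    (h : ℕ → ι → G) {f : ι → Ω → ℝ} (hf : ∀ c, Good (f c)) (x₀ : ℕ → ι) (k : ℕ) :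
    (av fun c => ∫ ω, f c ω ∂μ) ^ (k + 1) ≤
      IA k (fun x => ∫ p, ∏ j ∈ range (k + 1), f (x j) (W π h x j • p) ∂μ) x₀ := by
  apply le_of_forall_pos_le_add
  intro ε hε
  set η : ℝ := min 1 (ε / (k + 1)) with hη
  have hη0 : 0 < η := lt_min one_pos (by positivity)
  have hη1 : η ≤ 1 := min_le_left _ _
  have hηε : ((k + 1 : ℕ) : ℝ) * η ≤ ε := by
    have h1 : η ≤ ε / (k + 1) := min_le_right _ _
    rw [le_div_iff₀ (by positivity)] at h1
    push_cast
    linarith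
  have hfB : ∀ c, BM (f c) := fun c =>
    ⟨(hf c).1, 1, fun ω => by rw [abs_of_nonneg ((hf c).2 ω).1]; exact ((hf c).2 ω).2⟩
  set F : ι → Ω → ℝ := fun c ω => (1 - η) * f c ω + η with hF
  have hFB : ∀ c, BM (F c) := fun c => ((BM.const (1 - η)).mul (hfB c)).add (BM.const η)
  have hfF : ∀ c ω, f c ω ≤ F c ω := by
    intro c ω
    have := ((hf c).2 ω).2
    simp only [hF]
    nlinarith
  have hFf : ∀ c ω, F c ω ≤ f c ω + η := by
    intro c ω
    have := ((hf c).2 ω).1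
    simp only [hF]
    nlinarith
  have hF1 : ∀ c ω, F c ω ≤ 1 := by
    intro c ω
    have := ((hf c).2 ω).2
    simp only [hF]
    nlinarith
  have hηF : ∀ c ω, η ≤ F c ω := by
    intro c ω
    have := ((hf c).2 ω).1
    simp only [hF]
    nlinarith
  have h1 := tree_pos π h hmp hFB hη0 hηF x₀ k
  have h2 : (av fun c => ∫ ω, f c ω ∂μ) ^ (k + 1) ≤ (av fun c => ∫ ω, F c ω ∂μ) ^ (k + 1) := by
    apply pow_le_pow_left₀
    · calc (0 : ℝ) = av (fun _ : ι => (0 : ℝ)) := (av_const 0).symm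
        _ ≤ _ := av_mono fun c => integral_nonneg fun ω => ((hf c).2 ω).1
    · exact av_mono fun c => integral_mono (hfB c).int (hFB c).int (hfF c)
  have h3 : ∀ x : ℕ → ι, ∫ p, ∏ j ∈ range (k + 1), F (x j) (W π h x j • p) ∂μ ≤
      ∫ p, ∏ j ∈ range (k + 1), f (x j) (W π h x j • p) ∂μ + ((k + 1 : ℕ) : ℝ) * η := by
    intro x
    have b1 : BM (fun p => ∏ j ∈ range (k + 1), f (x j) (W π h x j • p)) := BM.prod _ fun j _ => (hfB _).tr hmp _
    have b2 : BM (fun p => ∏ j ∈ range (k + 1), F (x j) (W π h x j • p)) := BM.prod _ fun j _ => (hFB _).tr hmp _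
    have h4 := integral_mono (b2.int (μ := μ)) ((b1.add (BM.const (((k + 1 : ℕ) : ℝ) * η))).int)
      (fun p => prod_close (k + 1) (fun j => f (x j) (W π h x j • p)) (fun j => F (x j) (W π h x j • p)) η hη0.le
        (fun j => (hf _).2 _) (fun j => hfF _ _) (fun j => hFf _ _) (fun j => hF1 _ _))
    refine h4.trans (le_of_eq ?_)
    rw [integral_add b1.int (integrable_const _)]
    simp
  have h4 := IA_mono k h3 x₀
  rw [IA_add, IA_const] at h4
  linarith

/-- **the inequality for trees** -/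
theorem tree (hmp : ∀ g : G, MeasurePreserving (fun ω : Ω => g • ω) μ μ) (π : (j : ℕ) → Fin (j + 1))
    (h : ℕ → ι → G) {f : ι → Ω → ℝ} (hf : ∀ c, Good (f c)) (k : ℕ) :
    (av fun c => ∫ ω, f c ω ∂μ) ^ (k + 1) ≤ av (fun y : Fin (k + 1) → ι =>
      ∫ p, ∏ j : Fin (k + 1), f (y j) (W π h (fun m => y (Fin.ofNat (k + 1) m)) j • p) ∂μ) := by
  have x₀ : ℕ → ι := fun _ => Classical.arbitrary ι
  refine (tree_IA hmp π h hf x₀ k).trans (le_of_eq ?_)
  rw [IA_eq]
  congr 1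
  funext y
  congr 1
  funext p
  rw [Finset.prod_range]
  refine prod_congr rfl fun j _ => ?_
  beta_reduce
  have hW : W π h (fun m => if hm : m < k + 1 then y ⟨m, hm⟩ else x₀ m) j =
      W π h (fun m => y (Fin.ofNat (k + 1) m)) j := ?_
  · rw [dif_pos j.2, hW]
  apply W_congr π h (j : ℕ)
  intro m hm
  have hmk : m < k + 1 := by have := j.2; omega
  rw [dif_pos hmk]
  congr 1
  apply Fin.ext
  rw [Fin.ofNat_eq_cast, Fin.val_natCast, Nat.mod_eq_of_lt hmk]

end

/-- a set of tuples which contains almost all tuples of a set `U` -/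
lemma sum_good {k : ℕ} (U : Finset ℕ) (S : Finset (Fin (k + 1) → ℕ)) (ε : ℝ) (hε : 0 < ε) (hε2 : ε ≤ 1 / 2)
    (hSU : ∀ a ∈ S, ∀ i, a i ∈ U)
    (hS : (1 - ε) * (U.card : ℝ) ^ (k + 1) ≤ (S.card : ℝ)) (b c : (Fin (k + 1) → ℕ) → ℝ)
    (hb : ∀ a, 0 ≤ b a) (hc : ∀ a, c a ≤ 1)
    (hβ : ∑ a ∈ Fintype.piFinset (fun _ : Fin (k + 1) => U), b a ≤
      ∑ a ∈ Fintype.piFinset (fun _ : Fin (k + 1) => U), c a) :
    ∑ a ∈ S, b a - 2 * ε * (S.card : ℝ) ≤ ∑ a ∈ S, c a := by
  have hsub : S ⊆ Fintype.piFinset (fun _ : Fin (k + 1) => U) := by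
    intro a ha
    rw [Fintype.mem_piFinset]
    exact hSU a ha
  have hcard : (Fintype.piFinset (fun _ : Fin (k + 1) => U)).card = U.card ^ (k + 1) := by
    rw [Fintype.card_piFinset, prod_const, card_univ, Fintype.card_fin]
  have h1 : ∑ a ∈ Fintype.piFinset (fun _ : Fin (k + 1) => U), c a =
      ∑ a ∈ S, c a + ∑ a ∈ Fintype.piFinset (fun _ : Fin (k + 1) => U) \ S, c a := by
    have := sum_sdiff (f := c) hsub
    linarith
  have h1' : ∑ a ∈ S, b a ≤ ∑ a ∈ Fintype.piFinset (fun _ : Fin (k + 1) => U), b a :=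
    sum_le_sum_of_subset_of_nonneg hsub fun a _ _ => hb a
  have h2 : ∑ a ∈ Fintype.piFinset (fun _ : Fin (k + 1) => U) \ S, c a ≤ ε * (U.card : ℝ) ^ (k + 1) := by
    calc ∑ a ∈ Fintype.piFinset (fun _ : Fin (k + 1) => U) \ S, c a ≤
          ∑ _a ∈ Fintype.piFinset (fun _ : Fin (k + 1) => U) \ S, (1 : ℝ) := sum_le_sum fun a _ => hc a
      _ = ((Fintype.piFinset (fun _ : Fin (k + 1) => U) \ S).card : ℝ) := by simp
      _ = (U.card : ℝ) ^ (k + 1) - S.card := by
          rw [card_sdiff_of_subset hsub, Nat.cast_sub (card_le_card hsub), hcard]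
          push_cast
          rfl
      _ ≤ _ := by linarith
  have h3 : ε * (U.card : ℝ) ^ (k + 1) ≤ 2 * ε * (S.card : ℝ) := by
    have h4 : (0 : ℝ) ≤ (U.card : ℝ) ^ (k + 1) := by positivity
    have h5 : (1 / 2 : ℝ) * (U.card : ℝ) ^ (k + 1) ≤ (S.card : ℝ) := by nlinarith
    nlinarith
  linarith

section

variable {Ω : Type u} [MeasurableSpace Ω] {μ : Measure Ω} [IsProbabilityMeasure μ]
variable {G : Type v} [Group G] [MulAction G Ω]

/-- the inequality for all the tuples of a set -/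
lemma tree_sum (hmp : ∀ g : G, MeasurePreserving (fun ω : Ω => g • ω) μ μ) (π : (j : ℕ) → Fin (j + 1))
    (h : ℕ → ℕ → G) {f : ℕ → Ω → ℝ} (k : ℕ) (U : Finset ℕ) (hf : ∀ c ∈ U, Good (f c)) (hU : U.Nonempty) :
    ∑ a ∈ Fintype.piFinset (fun _ : Fin (k + 1) => U), ∏ j, ∫ ω, f (a j) ω ∂μ ≤
      ∑ a ∈ Fintype.piFinset (fun _ : Fin (k + 1) => U),
      ∫ p, ∏ j : Fin (k + 1), f (a j) (W π h (fun m => a (Fin.ofNat (k + 1) m)) j • p) ∂μ := by
  classical
  have hne : Nonempty U := hU.to_subtype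
  have h1 := tree (ι := U) hmp π (fun j c => h j c) (f := fun c => f c) (fun c => hf c c.2) k
  unfold CR.av at h1
  have hcard : (Fintype.card (Fin (k + 1) → U) : ℝ) = (U.card : ℝ) ^ (k + 1) := by
    rw [Fintype.card_fun, Fintype.card_fin, Fintype.card_coe]
    push_cast
    rfl
  have hU0 : (0 : ℝ) < U.card := by exact_mod_cast hU.card_pos
  rw [hcard, div_pow, Fintype.card_coe, div_le_div_iff_of_pos_right (by positivity)] at h1
  have e0 : ∑ a ∈ Fintype.piFinset (fun _ : Fin (k + 1) => U), ∏ j, ∫ ω, f (a j) ω ∂μ =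
      (∑ i : U, ∫ ω, f i ω ∂μ) ^ (k + 1) := by
    have h2 := Finset.prod_univ_sum (fun _ : Fin (k + 1) => U) (fun _ v => ∫ ω, f v ω ∂μ)
    rw [← h2, prod_const, card_univ, Fintype.card_fin]
    congr 1
    exact (sum_coe_sort U (fun v => ∫ ω, f v ω ∂μ)).symm
  rw [e0]
  refine h1.trans (le_of_eq ?_)
  apply sum_bij (fun (y : Fin (k + 1) → U) _ i => (y i : ℕ))
  · intro y _
    rw [Fintype.mem_piFinset]
    exact fun i => (y i).2
  · intro y _ y' _ hyy
    funext i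
    exact Subtype.ext (congrFun hyy i)
  · intro a ha
    rw [Fintype.mem_piFinset] at ha
    exact ⟨fun i => ⟨a i, ha i⟩, mem_univ _, rfl⟩
  · intro y _
    congr 1
    funext p
    refine prod_congr rfl fun j _ => ?_
    congr 2
    -- the positions agree
    have hW : ∀ (x : ℕ → U) (j : ℕ), W π (fun j (c : U) => h j c) x j = W π h (fun m => (x m : ℕ)) j := by
      intro x j
      induction j using Nat.strong_induction_on with
      | _ j ih =>
        rcases j with _ | j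
        · rw [W_zero, W_zero]
        · rw [W_succ, W_succ, ih (π j) (π j).2]
    exact hW _ _

end

/-- **correlations along trees and tuples of primes** -/
theorem main (k : ℕ) (ε : ℝ) (hε : 0 < ε) : ∃ z n₀ C : ℕ, ∀ V : Finset ℕ, n₀ ≤ V.card →
    (∀ p : ℕ, p.Prime → p ≤ z → ∃ r : ℤ, ∀ v ∈ V, ¬ ((p : ℤ) ∣ r + v)) →
    ∃ S : Finset (Fin (k + 1) → ℕ), (∀ x ∈ S, Function.Injective x ∧ ∀ i, x i ∈ V) ∧
      ((5 / 18 : ℝ) ^ (k + 1) - ε) * (V.card : ℝ) ^ (k + 1) ≤ (S.card : ℝ) ∧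
      (∃ᶠ N : ℕ in Filter.atTop, ∀ x ∈ S, (N : ℝ) / (Real.log N) ^ C ≤
        ({n : ℕ | n ≤ N ∧ ∀ i, (n + x i).Prime}.ncard : ℝ)) ∧
      ∀ (G : Type v) [Group G] (Ω : Type u) [MeasurableSpace Ω] [MulAction G Ω] (μ : Measure Ω)
        [IsProbabilityMeasure μ], (∀ g : G, MeasurePreserving (fun ω : Ω => g • ω) μ μ) →
      ∀ f : ℕ → Ω → ℝ, (∀ v ∈ V, Measurable (f v)) → (∀ v ∈ V, ∀ ω, 0 ≤ f v ω ∧ f v ω ≤ 1) →
      ∀ (π : (j : ℕ) → Fin (j + 1)) (h : ℕ → ℕ → G),
        ∑ x ∈ S, ∏ j, ∫ ω, f (x j) ω ∂μ - ε * (S.card : ℝ) ≤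
          ∑ x ∈ S, ∫ ω, ∏ j : Fin (k + 1), f (x j) (W π h (fun m => x (Fin.ofNat (k + 1) m)) j • ω) ∂μ := by
  set ε' : ℝ := min (5 / 36) (ε / (k + 2)) with hε'
  have hε'0 : 0 < ε' := lt_min (by norm_num) (by positivity)
  have hε'1 : ε' ≤ 5 / 36 := min_le_left _ _
  have hε'2 : ((k : ℝ) + 2) * ε' ≤ ε := by
    have h1 : ε' ≤ ε / (k + 2) := min_le_right _ _
    rw [le_div_iff₀ (by positivity)] at h1
    linarith
  have hε'ε : ε' ≤ ε := by
    have : (0 : ℝ) ≤ k := Nat.cast_nonneg k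
    nlinarith
  obtain ⟨z, n₀, C, J, H⟩ := Pool.Agent.Results.MP_8923e7_nt.PartitionIntoClusters.result k ε' hε'0
  refine ⟨z, max n₀ 1, C, ?_⟩
  intro V hn hloc
  obtain ⟨U, T, hUV, hdis, hcov, hlow, hT1, hT2, hT3⟩ := H V ((le_max_left _ _).trans hn) hloc
  have hV1 : 1 ≤ V.card := (le_max_right _ _).trans hn
  have hV1' : (1 : ℝ) ≤ V.card := by exact_mod_cast hV1
  -- the first nonempty cluster
  have hex : ∃ j, U j ≠ ∅ := by
    by_contra hcon
    push Not at hcon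
    have h1 : univ.biUnion U = ∅ := by
      rw [← not_nonempty_iff_eq_empty]
      rintro ⟨v, hv⟩
      obtain ⟨j, _, hvj⟩ := mem_biUnion.1 hv
      rw [hcon j] at hvj
      exact notMem_empty _ hvj
    rw [h1, sdiff_empty] at hcov
    have h2 : ε' * (V.card : ℝ) ≤ 5 / 36 * V.card := mul_le_mul_of_nonneg_right hε'1 (by linarith)
    linarith
  obtain ⟨j, hj⟩ : ∃ j, U j ≠ ∅ ∧ ∀ i < j, U i = ∅ := by
    classical
    have hne : (univ.filter (fun j => U j ≠ ∅)).Nonempty := by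
      obtain ⟨j, hj⟩ := hex
      exact ⟨j, by rw [mem_filter]; exact ⟨mem_univ _, hj⟩⟩
    refine ⟨(univ.filter (fun j => U j ≠ ∅)).min' hne, ?_, ?_⟩
    · exact (mem_filter.1 (min'_mem _ hne)).2
    · intro i hi
      by_contra hcon
      have : i ∈ univ.filter (fun j => U j ≠ ∅) := by rw [mem_filter]; exact ⟨mem_univ _, hcon⟩
      exact absurd (min'_le _ i this) (not_le.2 hi)
  have hUj : (5 / 18 - ε') * (V.card : ℝ) ≤ (U j).card := by
    rcases hlow j with h1 | h1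
    · exact absurd h1 hj.1
    · have h2 : (Iio j).biUnion U = ∅ := by
        rw [← not_nonempty_iff_eq_empty]
        rintro ⟨v, hv⟩
        obtain ⟨i, hi, hvi⟩ := mem_biUnion.1 hv
        rw [hj.2 i (mem_Iio.1 hi)] at hvi
        exact notMem_empty _ hvi
      rw [h2, sdiff_empty] at h1
      exact h1
  have hUne : (U j).Nonempty := nonempty_iff_ne_empty.2 hj.1
  refine ⟨T j, fun x hx => ⟨(hT1 j x hx).1, fun i => hUV j ((hT1 j x hx).2 i)⟩, ?_, ?_, ?_⟩
  · have hb : (5 / 18 - ε') ^ (k + 1) * (V.card : ℝ) ^ (k + 1) ≤ ((U j).card : ℝ) ^ (k + 1) := by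
      rw [← mul_pow]
      exact pow_le_pow_left₀ (mul_nonneg (by linarith) (by linarith)) hUj _
    have hp : (5 / 18 : ℝ) ^ (k + 1) - (k + 1) * ε' ≤ (5 / 18 - ε') ^ (k + 1) := by
      have : ∀ n : ℕ, (5 / 18 : ℝ) ^ n - n * ε' ≤ (5 / 18 - ε') ^ n := by
        intro n
        induction n with
        | zero => simp
        | succ n ih =>
          have h1 : (0 : ℝ) ≤ 5 / 18 - ε' := by linarith
          have h2 : (5 / 18 : ℝ) ^ n ≤ 1 := pow_le_one₀ (by norm_num) (by norm_num)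
          have h3 := mul_le_mul_of_nonneg_right ih h1
          rw [pow_succ, pow_succ]
          push_cast
          refine le_trans ?_ h3
          have h4 : (0 : ℝ) ≤ n := Nat.cast_nonneg n
          have h5 : (5 / 18 : ℝ) ^ n * ε' ≤ 1 * ε' := mul_le_mul_of_nonneg_right h2 hε'0.le
          have h6 : 0 ≤ (n : ℝ) * ε' * (13 / 18 + ε') := by positivity
          nlinarith
      have h1 := this (k + 1)
      push_cast at h1
      exact h1
    have h1 : (1 - ε') * ((5 / 18 - ε') ^ (k + 1) * (V.card : ℝ) ^ (k + 1)) ≤ (T j).card :=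
      (mul_le_mul_of_nonneg_left hb (by linarith)).trans (hT2 j)
    refine le_trans ?_ h1
    rw [← mul_assoc]
    apply mul_le_mul_of_nonneg_right _ (by positivity)
    have h2 : (5 / 18 - ε') ^ (k + 1) ≤ 1 := pow_le_one₀ (by linarith) (by linarith)
    have h3 : ε' * (5 / 18 - ε') ^ (k + 1) ≤ ε' * 1 := mul_le_mul_of_nonneg_left h2 hε'0.le
    nlinarith
  · exact hT3.mono fun N hN x hx => hN j x hx
  · intro G _ Ω _ _ μ _ hmp f hfm hf π h
    -- change the functions outside `V`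
    set f' : ℕ → Ω → ℝ := fun v => if v ∈ V then f v else 0 with hf'
    have hf'g : ∀ v, Good (f' v) := by
      intro v
      by_cases hv : v ∈ V
      · simp only [hf', if_pos hv]
        exact ⟨hfm v hv, hf v hv⟩
      · simp only [hf', if_neg hv]
        exact ⟨measurable_const, fun ω => ⟨le_rfl, zero_le_one⟩⟩
    have hff : ∀ v ∈ V, f' v = f v := fun v hv => by simp only [hf', if_pos hv]
    have hb : ∀ a : Fin (k + 1) → ℕ, 0 ≤ ∏ j, ∫ ω, f' (a j) ω ∂μ := fun a =>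
      prod_nonneg fun j _ => integral_nonneg fun ω => ((hf'g _).2 ω).1
    have hfB : ∀ v, BM (f' v) := fun v =>
      ⟨(hf'g v).1, 1, fun ω => by rw [abs_of_nonneg ((hf'g v).2 ω).1]; exact ((hf'g v).2 ω).2⟩
    have hc : ∀ a : Fin (k + 1) → ℕ,
        ∫ ω, ∏ j : Fin (k + 1), f' (a j) (W π h (fun m => a (Fin.ofNat (k + 1) m)) j • ω) ∂μ ≤ 1 := by
      intro a
      have b : BM (fun ω => ∏ j : Fin (k + 1), f' (a j) (W π h (fun m => a (Fin.ofNat (k + 1) m)) j • ω)) :=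
        BM.prod _ fun j _ => (hfB _).tr hmp _
      calc ∫ ω, ∏ j : Fin (k + 1), f' (a j) (W π h (fun m => a (Fin.ofNat (k + 1) m)) j • ω) ∂μ ≤
            ∫ _ω : Ω, (1 : ℝ) ∂μ :=
            integral_mono b.int (integrable_const _) (fun ω =>
              prod_le_one (fun j _ => ((hf'g _).2 _).1) (fun j _ => ((hf'g _).2 _).2))
        _ = 1 := by simp
    have h1 := sum_good (U j) (T j) ε' hε'0 (by linarith) (fun a ha => (hT1 j a ha).2) (hT2 j) _ _ hb hc
      (tree_sum (f := f') hmp π h k (U j) (fun c _ => hf'g c) hUne)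
    have e1 : ∑ x ∈ T j, ∏ i, ∫ ω, f' (x i) ω ∂μ = ∑ x ∈ T j, ∏ i, ∫ ω, f (x i) ω ∂μ := by
      refine sum_congr rfl fun x hx => prod_congr rfl fun i _ => ?_
      rw [hff _ (hUV j ((hT1 j x hx).2 i))]
    have e2 : ∑ x ∈ T j, ∫ ω, ∏ i : Fin (k + 1), f' (x i) (W π h (fun m => x (Fin.ofNat (k + 1) m)) i • ω) ∂μ =
        ∑ x ∈ T j, ∫ ω, ∏ i : Fin (k + 1), f (x i) (W π h (fun m => x (Fin.ofNat (k + 1) m)) i • ω) ∂μ := by
      refine sum_congr rfl fun x hx => ?_
      congr 1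
      funext ω
      refine prod_congr rfl fun i _ => ?_
      rw [hff _ (hUV j ((hT1 j x hx).2 i))]
    rw [e1, e2] at h1
    have h2 : 2 * ε' * ((T j).card : ℝ) ≤ ε * ((T j).card : ℝ) := by
      apply mul_le_mul_of_nonneg_right _ (Nat.cast_nonneg _)
      have : (0 : ℝ) ≤ k := Nat.cast_nonneg k
      nlinarith
    linarith

end Pool.Agent.H78.TR
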