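import Mathlib
import Pool.Agent.H78.TR.Tree
import Pool.Agent.H78.CR.Opt

set_option autoImplicit false

/-! The exponent `k + 1` is optimal, even for the correlation of the two ends of a path. -/

namespace Pool.Agent.H78.TR

open Finset MeasureTheory Pool.Agent.H78.CR

/-- the positions along a path -/
lemma W_path {G : Type} [AddCommGroup G] (g : ℕ → ℕ → G) (x : ℕ → ℕ) (j : ℕ) :
    W (fun j => Fin.last j) (fun j v => Multiplicative.ofAdd (∑ i ∈ range (j + 1), g i v)) x j =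
      Multiplicative.ofAdd (∑ i ∈ range j, g i (x i) - ∑ i ∈ range j, g i (x j)) := by
  induction j with
  | zero => rw [W_zero]; simp
  | succ j ih =>
    rw [W_succ]
    simp only [Fin.val_last]
    rw [ih, ← ofAdd_neg, ← ofAdd_add, ← ofAdd_add]
    congr 1
    rw [sum_range_succ (fun i => g i (x i)) j, sum_range_succ (fun i => g i (x j)) j]
    abel

theorem optimal_path (k : ℕ) (hk : 1 ≤ k) (θ : ℝ) (hθ : θ < k + 1) : ∃ δ : ℝ, 0 < δ ∧ δ < 1 ∧ ∀ V : Finset ℕ,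
    ∃ (G : Type) (_ : CommGroup G) (Ω : Type) (_ : MeasurableSpace Ω) (_ : MulAction G Ω) (μ : Measure Ω)
      (_ : IsProbabilityMeasure μ) (f : Ω → ℝ) (h : ℕ → ℕ → G),
      (∀ a : G, MeasurePreserving (fun ω : Ω => a • ω) μ μ) ∧ Measurable f ∧ (∀ ω, f ω = 0 ∨ f ω = 1) ∧
      ∫ ω, f ω ∂μ = δ ∧
      ∀ x : Fin (k + 1) → ℕ, (∀ i, x i ∈ V) → Function.Injective x →
        ∫ ω, f ω * f (W (fun j => Fin.last j) h (fun m => x (Fin.ofNat (k + 1) m)) k • ω) ∂μ < δ ^ θ := by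
  obtain ⟨δ, hδ0, hδ1, H⟩ := optimal k hk θ hθ
  refine ⟨δ, hδ0, hδ1, fun V => ?_⟩
  obtain ⟨G, iG, Ω, iΩ, iA, μ, iμ, f, g, hmp, hfm, hf01, hfδ, hg, hx⟩ := H V
  set g' : ℕ → ℕ → G := fun i v => if h : i < k + 1 then g ⟨i, h⟩ v else 0 with hg'
  have hsum : ∀ v, ∑ i ∈ range (k + 1), g' i v = 0 := by
    intro v
    rw [Finset.sum_range, ← hg v]
    refine sum_congr rfl fun i _ => ?_
    simp only [hg', dif_pos i.2]
  refine ⟨Multiplicative G, inferInstance, Ω, iΩ, inferInstance, μ, iμ, f,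
    fun j v => Multiplicative.ofAdd (∑ i ∈ range (j + 1), g' i v), fun a => hmp (Multiplicative.toAdd a), hfm, hf01,
    hfδ, ?_⟩
  intro x hxV hxi
  rw [W_path]
  have e : (∑ i ∈ range k, g' i (x (Fin.ofNat (k + 1) i)) - ∑ i ∈ range k, g' i (x (Fin.ofNat (k + 1) k))) =
      ∑ i, g i (x i) := by
    have h1 : ∑ i ∈ range k, g' i (x (Fin.ofNat (k + 1) k)) = - g' k (x (Fin.ofNat (k + 1) k)) := by
      have h2 := hsum (x (Fin.ofNat (k + 1) k))
      rw [sum_range_succ] at h2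
      exact eq_neg_of_add_eq_zero_left h2
    rw [h1, sub_neg_eq_add, ← sum_range_succ (fun i => g' i (x (Fin.ofNat (k + 1) i))), Finset.sum_range]
    refine sum_congr rfl fun i _ => ?_
    simp only [hg', dif_pos i.2]
    congr 2
    apply Fin.ext
    rw [Fin.ofNat_eq_cast, Fin.val_natCast, Nat.mod_eq_of_lt i.2]
  rw [e]
  exact hx x hxV hxi

end Pool.Agent.H78.TR
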